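import Pool.Agent.Y941.GD.Mat

/-!
# Resolvents and functional calculus in `ST(H^∞)`
-/

set_option autoImplicit false

open MeasureTheory AddCircle Filter Topology
open scoped ComplexConjugate ENNReal NNReal

namespace Pool.Agent.Y941.GD

open Pool.Agent.Helper406.Toep

lemma ST_const (c : ℂ) : ST (fun _ : UnitAddCircle => c) := by
  rw [ST_iff]
  refine ⟨c • 1, ?_⟩
  rw [map_smul, map_one]
  filter_upwards [coeFn_smul c (1 : Li), coeFn_one] with t h1 h2
  rw [h1, h2, mul_one]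

lemma ST_cmul {f : UnitAddCircle → ℂ} (c : ℂ) (hf : ST f) : ST (fun t => c * f t) :=
  ST_mul (ST_const c) hf

lemma ae_le_toReal {f : UnitAddCircle → ℂ} (h : eLpNorm f ⊤ haarAddCircle < ⊤) :
    ∀ᵐ t ∂haarAddCircle, ‖f t‖ ≤ (eLpNorm f ⊤ haarAddCircle).toReal := by
  have h1 := ae_le_eLpNormEssSup (f := f) (μ := haarAddCircle)
  filter_upwards [h1] with t ht
  rw [← eLpNorm_exponent_top] at ht
  have h2 := ENNReal.toReal_mono h.ne ht
  rwa [toReal_enorm] at h2

lemma eLp_lt_one {f : UnitAddCircle → ℂ} {a : ℝ} (ha : a < 1)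
    (h : ∀ᵐ t ∂haarAddCircle, ‖f t‖ ≤ a) : eLpNorm f ⊤ haarAddCircle < 1 := by
  have h1 : eLpNorm f ⊤ haarAddCircle ≤ ENNReal.ofReal a := by
    rw [eLpNorm_exponent_top]
    refine eLpNormEssSup_le_of_ae_bound h
  refine lt_of_le_of_lt h1 ?_
  rw [← ENNReal.ofReal_one]
  exact (ENNReal.ofReal_lt_ofReal_iff one_pos).2 ha

/-- the resolvent at a nearby point -/
lemma res_near {f : UnitAddCircle → ℂ} {w w' : ℂ} {ε : ℝ} (hε : 0 < ε)
    (h : ∀ᵐ t ∂haarAddCircle, ε ≤ ‖w - f t‖) (hw : ST (fun t => 1 / (w - f t)))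
    (hd : ‖w - w'‖ < ε) : ST (fun t => 1 / (w' - f t)) := by
  have h1 : ST (fun t => (w - w') * (1 / (w - f t))) := ST_cmul _ hw
  have h2 : eLpNorm (fun t => (w - w') * (1 / (w - f t))) ⊤ haarAddCircle < 1 := by
    apply eLp_lt_one (a := ‖w - w'‖ / ε) ((div_lt_one hε).2 hd)
    filter_upwards [h] with t ht
    rw [norm_mul, norm_div, norm_one, mul_one_div]
    exact div_le_div_of_nonneg_left (norm_nonneg _) hε ht
  have h3 := ST_mul hw (ST_inv h1 h2)
  refine ST_congr h3 ?_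
  filter_upwards [h] with t ht
  have h4 : w - f t ≠ 0 := by
    intro h0
    rw [h0, norm_zero] at ht
    linarith
  have h5 : w' - f t ≠ 0 := by
    intro h0
    have e : w - w' = w - f t := by linear_combination -h0
    rw [e] at hd
    linarith
  have h6 : 1 - (w - w') * (1 / (w - f t)) = (w' - f t) / (w - f t) := by
    field_simp
    ring
  rw [h6]
  field_simp

/-- `w` is not in the essential range of `f` -/
def Off (f : UnitAddCircle → ℂ) (w : ℂ) : Prop :=
  ∃ ε : ℝ, 0 < ε ∧ ∀ᵐ t ∂haarAddCircle, ε ≤ ‖w - f t‖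

lemma res_iff {f : UnitAddCircle → ℂ} {w : ℂ} (h : Off f w) :
    ∃ r : ℝ, 0 < r ∧ ∀ w', ‖w - w'‖ < r →
      (ST (fun t => 1 / (w' - f t)) ↔ ST (fun t => 1 / (w - f t))) := by
  obtain ⟨ε, hε, h1⟩ := h
  refine ⟨ε / 2, by positivity, fun w' hw' => ⟨fun h2 => ?_, fun h2 => ?_⟩⟩
  · have h3 : ∀ᵐ t ∂haarAddCircle, ε / 2 ≤ ‖w' - f t‖ := by
      filter_upwards [h1] with t ht
      have h4 : ‖w - f t‖ ≤ ‖w - w'‖ + ‖w' - f t‖ := by
        have := norm_add_le (w - w') (w' - f t)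
        rwa [sub_add_sub_cancel] at this
      linarith
    refine res_near (by positivity) h3 h2 ?_
    rw [norm_sub_rev]
    exact hw'
  · exact res_near hε h1 h2 (by linarith)

/-- the resolvent set is a union of components of the complement of the essential range -/
theorem res_conn {f : UnitAddCircle → ℂ} {Ω : Set ℂ} (hΩ : IsPreconnected Ω)
    (hoff : ∀ w ∈ Ω, Off f w) {w₀ : ℂ} (h0 : w₀ ∈ Ω) (h1 : ST (fun t => 1 / (w₀ - f t))) :
    ∀ w ∈ Ω, ST (fun t => 1 / (w - f t)) := by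
  obtain ⟨G, hG⟩ : ∃ G : Set ℂ, G = {w | ST (fun t => 1 / (w - f t))} := ⟨_, rfl⟩
  have hcov : Ω ⊆ interior G ∪ interior Gᶜ := by
    intro w hw
    obtain ⟨r, hr, h2⟩ := res_iff (hoff w hw)
    by_cases h3 : ST (fun t => 1 / (w - f t))
    · left
      rw [mem_interior_iff_mem_nhds, Metric.mem_nhds_iff]
      refine ⟨r, hr, fun w' hw' => ?_⟩
      rw [Metric.mem_ball, dist_comm, dist_eq_norm] at hw'
      rw [hG]
      exact (h2 w' hw').2 h3
    · right
      rw [mem_interior_iff_mem_nhds, Metric.mem_nhds_iff]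
      refine ⟨r, hr, fun w' hw' => ?_⟩
      rw [Metric.mem_ball, dist_comm, dist_eq_norm] at hw'
      rw [hG]
      exact fun h4 => h3 ((h2 w' hw').1 h4)
  intro w hw
  by_contra hcon
  have h4 : w₀ ∈ interior G := by
    rcases hcov h0 with h | h
    · exact h
    · have := interior_subset h
      rw [hG] at this
      exact absurd h1 this
  have h5 : w ∈ interior Gᶜ := by
    rcases hcov hw with h | h
    · have := interior_subset h
      rw [hG] at this
      exact absurd this hcon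
    · exact h
  obtain ⟨z, _, h6, h7⟩ := hΩ _ _ isOpen_interior isOpen_interior hcov ⟨w₀, h0, h4⟩ ⟨w, hw, h5⟩
  exact interior_subset h7 (interior_subset h6)

/-- far points -/
theorem res_far {f : UnitAddCircle → ℂ} (hf : ST f) {w : ℂ}
    (hw : (eLpNorm f ⊤ haarAddCircle).toReal < ‖w‖) : ST (fun t => 1 / (w - f t)) := by
  have hw0 : 0 < ‖w‖ := lt_of_le_of_lt ENNReal.toReal_nonneg hw
  have hw1 : w ≠ 0 := norm_pos_iff.1 hw0
  have h1 : ST (fun t => w⁻¹ * f t) := ST_cmul _ hf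
  have h2 : eLpNorm (fun t => w⁻¹ * f t) ⊤ haarAddCircle < 1 := by
    apply eLp_lt_one (a := (eLpNorm f ⊤ haarAddCircle).toReal / ‖w‖) ((div_lt_one hw0).2 hw)
    filter_upwards [ae_le_toReal hf.2.1] with t ht
    rw [norm_mul, norm_inv, inv_mul_eq_div]
    exact div_le_div_of_nonneg_right ht hw0.le
  have h3 := ST_cmul w⁻¹ (ST_inv h1 h2)
  refine ST_congr h3 (Eventually.of_forall fun t => ?_)
  have e : w - f t = w * (1 - w⁻¹ * f t) := by field_simp
  show w⁻¹ * (1 / (1 - w⁻¹ * f t)) = 1 / (w - f t)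
  rw [e, one_div, one_div, mul_inv]

/-- accretive matrix valued functions -/
theorem mat_acc {n : ℕ} (M : UnitAddCircle → Matrix (Fin n) (Fin n) ℂ) (δ : ℝ) (hδ : 0 < δ)
    (hM : ∀ i j, ST (fun t => M t i j))
    (hb : ∀ᵐ t ∂haarAddCircle, ∀ v : Fin n → ℂ,
      δ * ∑ i, ‖v i‖ ^ 2 ≤ (∑ i, conj (v i) * (M t).mulVec v i).re) :
    ∀ i j, ST (fun t => ((M t)⁻¹) i j) := by
  -- a bound for the entries
  obtain ⟨b, hb0, hbb⟩ : ∃ b : ℝ, 0 ≤ b ∧ ∀ᵐ t ∂haarAddCircle, ∀ i j, ‖M t i j‖ ≤ b := by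
    refine ⟨∑ i, ∑ j, (eLpNorm (fun t => M t i j) ⊤ haarAddCircle).toReal,
      Finset.sum_nonneg fun i _ => Finset.sum_nonneg fun j _ => ENNReal.toReal_nonneg, ?_⟩
    refine ae_all_iff.2 fun i => ae_all_iff.2 fun j => ?_
    filter_upwards [ae_le_toReal (hM i j).2.1] with t ht
    refine ht.trans ?_
    refine le_trans ?_ (Finset.single_le_sum (f := fun i => ∑ j,
      (eLpNorm (fun t => M t i j) ⊤ haarAddCircle).toReal)
      (fun i _ => Finset.sum_nonneg fun j _ => ENNReal.toReal_nonneg) (Finset.mem_univ i))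
    exact Finset.single_le_sum (f := fun j => (eLpNorm (fun t => M t i j) ⊤ haarAddCircle).toReal)
      (fun j _ => ENNReal.toReal_nonneg) (Finset.mem_univ j)
  obtain ⟨B, hB⟩ : ∃ B : ℝ, B = n * n * b ^ 2 := ⟨_, rfl⟩
  have hB0 : 0 ≤ B := by rw [hB]; positivity
  obtain ⟨c, hc⟩ : ∃ c : ℝ, c = B / δ + δ := ⟨_, rfl⟩
  have hc0 : 0 < c := by rw [hc]; positivity
  have hcd : δ ≤ c := by
    have : 0 ≤ B / δ := by positivity
    rw [hc]; linarith
  have hcB : B / c ≤ δ := by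
    rw [div_le_iff₀ hc0, hc, mul_add, mul_div_cancel₀ _ hδ.ne']
    nlinarith
  obtain ⟨q, hq0, hq1, hq2⟩ : ∃ q : ℝ, 0 ≤ q ∧ q < 1 ∧ q ^ 2 = 1 - δ / c := by
    have h1 : 0 ≤ 1 - δ / c := by
      rw [sub_nonneg, div_le_one hc0]; exact hcd
    refine ⟨√(1 - δ / c), Real.sqrt_nonneg _, ?_, Real.sq_sqrt h1⟩
    rw [Real.sqrt_lt' one_pos]
    have : 0 < δ / c := by positivity
    linarith
  have hN := mat_gd (fun t => 1 - (c : ℂ)⁻¹ • M t) q hq0 hq1 (fun i j => ?_) ?_
  · intro i j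
    have h1 := ST_cmul (c : ℂ)⁻¹ (hN i j)
    refine ST_congr h1 (Eventually.of_forall fun t => ?_)
    have hc1 : (c : ℂ) ≠ 0 := by exact_mod_cast hc0.ne'
    show (c : ℂ)⁻¹ * (1 - (1 - (c : ℂ)⁻¹ • M t))⁻¹ i j = (M t)⁻¹ i j
    rw [sub_sub_cancel]
    have h2 : ((c : ℂ)⁻¹ • M t)⁻¹ = (c : ℂ) • (M t)⁻¹ := by
      by_cases hd : IsUnit (M t).det
      · apply Matrix.inv_eq_right_inv
        rw [Matrix.smul_mul, Matrix.mul_smul, smul_smul, inv_mul_cancel₀ hc1, one_smul,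
          Matrix.mul_nonsing_inv _ hd]
      · rw [Matrix.nonsing_inv_apply_not_isUnit _ hd, smul_zero,
          Matrix.nonsing_inv_apply_not_isUnit]
        rw [Matrix.det_smul]
        intro h3
        apply hd
        exact isUnit_of_mul_isUnit_right h3
    rw [h2, Matrix.smul_apply, smul_eq_mul, ← mul_assoc, inv_mul_cancel₀ hc1, one_mul]
  · have h1 : ST (fun t => (1 : Matrix (Fin n) (Fin n) ℂ) i j + (-(c : ℂ)⁻¹) * M t i j) :=
      ST_add (ST_const _) (ST_cmul _ (hM i j))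
    refine ST_congr h1 (Eventually.of_forall fun t => ?_)
    show (1 : Matrix (Fin n) (Fin n) ℂ) i j + (-(c : ℂ)⁻¹) * M t i j =
      (1 - (c : ℂ)⁻¹ • M t) i j
    rw [Matrix.sub_apply, Matrix.smul_apply, smul_eq_mul]
    ring
  · filter_upwards [hb, hbb] with t h1 h2 v
    have h3 : ∀ i, (1 - (c : ℂ)⁻¹ • M t).mulVec v i = v i - (c : ℂ)⁻¹ * (M t).mulVec v i := by
      intro i
      rw [Matrix.sub_mulVec, Matrix.one_mulVec, Matrix.smul_mulVec, Pi.sub_apply, Pi.smul_apply,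
        smul_eq_mul]
    have h4 : ∀ i, ‖v i - (c : ℂ)⁻¹ * (M t).mulVec v i‖ ^ 2 = ‖v i‖ ^ 2 -
        2 / c * (conj (v i) * (M t).mulVec v i).re + (1 / c ^ 2) * ‖(M t).mulVec v i‖ ^ 2 := by
      intro i
      rw [← Complex.normSq_eq_norm_sq, ← Complex.normSq_eq_norm_sq, ← Complex.normSq_eq_norm_sq,
        Complex.normSq_sub, Complex.normSq_mul, Complex.normSq_inv, Complex.normSq_ofReal]
      have h5 : (v i * conj ((c : ℂ)⁻¹ * (M t).mulVec v i)).re =
          c⁻¹ * (conj (v i) * (M t).mulVec v i).re := by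
        rw [map_mul, map_inv₀, Complex.conj_ofReal, ← Complex.ofReal_inv]
        simp only [Complex.mul_re, Complex.mul_im, Complex.conj_re, Complex.conj_im,
          Complex.ofReal_re, Complex.ofReal_im]
        ring
      rw [h5]
      field_simp
      ring
    have h6 : ∑ i, ‖(M t).mulVec v i‖ ^ 2 ≤ B * ∑ i, ‖v i‖ ^ 2 := by
      have h7 : ∀ i, ‖(M t).mulVec v i‖ ^ 2 ≤ n * b ^ 2 * ∑ i, ‖v i‖ ^ 2 := by
        intro i
        have h8 : ‖(M t).mulVec v i‖ ≤ ∑ j, b * ‖v j‖ := by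
          have e : (M t).mulVec v i = ∑ j, M t i j * v j := rfl
          rw [e]
          refine (norm_sum_le _ _).trans (Finset.sum_le_sum fun j _ => ?_)
          rw [norm_mul]
          exact mul_le_mul_of_nonneg_right (h2 i j) (norm_nonneg _)
        have h9 := Finset.sum_mul_sq_le_sq_mul_sq Finset.univ (fun _ : Fin n => b)
          (fun j => ‖v j‖)
        rw [Finset.sum_const, Finset.card_univ, Fintype.card_fin, nsmul_eq_mul] at h9
        exact (pow_le_pow_left₀ (norm_nonneg _) h8 2).trans h9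
      refine (Finset.sum_le_sum fun i _ => h7 i).trans (le_of_eq ?_)
      rw [Finset.sum_const, Finset.card_univ, Fintype.card_fin, nsmul_eq_mul, hB]
      ring
    simp only [h3, h4]
    rw [Finset.sum_add_distrib, Finset.sum_sub_distrib, ← Finset.mul_sum, ← Finset.mul_sum,
      ← Complex.re_sum, hq2]
    have h10 := h1 v
    have h11 : 0 ≤ ∑ i, ‖v i‖ ^ 2 := Finset.sum_nonneg fun i _ => by positivity
    have h12 : 2 / c * (δ * ∑ i, ‖v i‖ ^ 2) ≤
        2 / c * (∑ i, conj (v i) * (M t).mulVec v i).re :=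
      mul_le_mul_of_nonneg_left h10 (by positivity)
    have h13 : 1 / c ^ 2 * ∑ i, ‖(M t).mulVec v i‖ ^ 2 ≤ δ / c * ∑ i, ‖v i‖ ^ 2 := by
      refine (mul_le_mul_of_nonneg_left h6 (by positivity)).trans ?_
      rw [← mul_assoc]
      refine mul_le_mul_of_nonneg_right ?_ h11
      have h14 : 1 / c ^ 2 * B = (B / c) / c := by field_simp
      rw [h14]
      exact div_le_div_of_nonneg_right hcB hc0.le
    have h15 : 2 / c * (δ * ∑ i, ‖v i‖ ^ 2) = 2 * (δ / c * ∑ i, ‖v i‖ ^ 2) := by ring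
    rw [h15] at h12
    linarith

end Pool.Agent.Y941.GD
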