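import Pool.Agent.Y941.GD.Ps

/-!
# Functional calculus and matrices over `H^∞`
-/

set_option autoImplicit false

open MeasureTheory AddCircle Filter Topology
open scoped ComplexConjugate ENNReal NNReal

namespace Pool.Agent.Y941.GD

open Pool.Agent.Helper406.Toep

/-- `f` is in `H^∞` -/
def HI (f : UnitAddCircle → ℂ) : Prop :=
  AEStronglyMeasurable f haarAddCircle ∧ eLpNorm f ⊤ haarAddCircle < ⊤ ∧
    ∀ n : ℤ, n < 0 → fourierCoeff f n = 0

lemma HI_iff (f : UnitAddCircle → ℂ) : HI f ↔ ∃ u : Li, u ∈ Hi ∧ ⇑u =ᵐ[mu] f := by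
  constructor
  · rintro ⟨h1, h2, h3⟩
    refine ⟨cls f h1 h2, fun n hn => ?_, coeFn_cls f h1 h2⟩
    rw [co_eq, fourierCoeff_congr_ae (coeFn_cls f h1 h2)]
    exact h3 n hn
  · rintro ⟨u, hu, h⟩
    refine ⟨(Lp.aestronglyMeasurable u).congr h, ?_, fun n hn => ?_⟩
    · rw [← eLpNorm_congr_ae h]
      exact Lp.eLpNorm_lt_top u
    · rw [← fourierCoeff_congr_ae h, ← co_eq]
      exact hu n hn

lemma pow_mem_Hi {u : Li} (hu : u ∈ Hi) (n : ℕ) : u ^ n ∈ Hi := by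
  induction n with
  | zero => rw [pow_zero]; exact one_mem_Hi
  | succ n ih => rw [pow_succ]; exact mul_mem_Hi ih hu

lemma norm_pow_Li (u : Li) (n : ℕ) : ‖u ^ n‖ ≤ ‖u‖ ^ n := by
  induction n with
  | zero => rw [pow_zero, pow_zero]; exact norm_one_Li_le
  | succ n ih =>
    rw [pow_succ, pow_succ]
    exact (norm_mul_le _ _).trans (mul_le_mul_of_nonneg_right ih (norm_nonneg _))

/-- holomorphic functions of elements of `H^∞` -/
theorem hfun {f : UnitAddCircle → ℂ} (hf : HI f) (c : ℂ) (R : ℝ)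
    (hR : (eLpNorm (fun t => f t - c) ⊤ haarAddCircle).toReal < R) (F : ℂ → ℂ)
    (hF : DifferentiableOn ℂ F (Metric.ball c R)) : HI (fun t => F (f t)) := by
  obtain ⟨x, hxm, hx⟩ := (HI_iff f).1 hf
  obtain ⟨y, hy⟩ : ∃ y : Li, y = x - c • 1 := ⟨_, rfl⟩
  have hym : y ∈ Hi := by rw [hy]; exact Hi.sub_mem hxm (Hi.smul_mem _ one_mem_Hi)
  have hya : ⇑y =ᵐ[mu] fun t => f t - c := by
    rw [hy]
    filter_upwards [coeFn_sub x (c • 1), coeFn_smul c 1, coeFn_one, hx] with t h1 h2 h3 h4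
    rw [h1, h2, h3, h4, mul_one]
  have hyn : ‖y‖ = (eLpNorm (fun t => f t - c) ⊤ haarAddCircle).toReal := by
    rw [Lp.norm_def, eLpNorm_congr_ae hya]
  rw [← hyn] at hR
  obtain ⟨ρ, hρ1, hρ2⟩ := exists_between hR
  obtain ⟨R₁, hR1, hR2⟩ := exists_between hρ2
  have hρ0 : 0 < ρ := lt_of_le_of_lt (norm_nonneg _) hρ1
  have hR10 : 0 < R₁ := hρ0.trans hR1
  have hpow : ∀ n, ‖y ^ n‖ ≤ ρ ^ n := fun n =>
    (norm_pow_Li y n).trans (pow_le_pow_left₀ (norm_nonneg _) hρ1.le n)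
  obtain ⟨r₁, hr₁⟩ : ∃ r : ℝ≥0, (r : ℝ) = R₁ := ⟨⟨R₁, hR10.le⟩, rfl⟩
  obtain ⟨r₀, hr₀⟩ : ∃ r : ℝ≥0, (r : ℝ) = ρ := ⟨⟨ρ, hρ0.le⟩, rfl⟩
  have hFP : HasFPowerSeriesOnBall F (cauchyPowerSeries F c r₁) c r₁ := by
    apply DifferentiableOn.hasFPowerSeriesOnBall
    · exact hF.mono (Metric.closedBall_subset_ball (by rw [hr₁]; exact hR2))
    · exact_mod_cast (by rw [hr₁]; exact hR10 : (0 : ℝ) < r₁)
  obtain ⟨p, hp⟩ : ∃ p : FormalMultilinearSeries ℂ ℂ ℂ, p = cauchyPowerSeries F c r₁ := ⟨_, rfl⟩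
  rw [← hp] at hFP
  have hrad : (r₀ : ℝ≥0∞) < p.radius := by
    refine lt_of_lt_of_le ?_ hFP.r_le
    have : r₀ < r₁ := by
      rw [← NNReal.coe_lt_coe, hr₀, hr₁]; exact hR1
    exact_mod_cast this
  have hsum0 := p.summable_norm_mul_pow hrad
  rw [hr₀] at hsum0
  have hsum : Summable fun n => p.coeff n • y ^ n := by
    apply Summable.of_norm_bounded hsum0
    intro n
    rw [norm_smul, ← FormalMultilinearSeries.norm_apply_eq_norm_coef]
    exact mul_le_mul_of_nonneg_left (hpow n) (norm_nonneg _)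
  obtain ⟨z, hz⟩ := hsum
  have hpart := hz.tendsto_sum_nat
  have hsy : Tendsto (fun N => ‖(∑ n ∈ Finset.range N, p.coeff n • y ^ n) - z‖) atTop (𝓝 0) := by
    have := (hpart.sub_const z).norm
    simpa using this
  have hzm : z ∈ Hi := by
    have h1 : ∀ N : ℕ, (∑ n ∈ Finset.range N, p.coeff n • y ^ n) ∈ (Hi : Set Li) := fun N =>
      Hi.sum_mem fun n _ => Hi.smul_mem _ (pow_mem_Hi hym n)
    exact isClosed_Hi.mem_of_tendsto hpart (Eventually.of_forall h1)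
  rw [HI_iff]
  refine ⟨z, hzm, ?_⟩
  have e1 : ∀ᵐ t ∂mu, ∀ N : ℕ, ‖((∑ n ∈ Finset.range N, p.coeff n • y ^ n) - z : Li) t‖ ≤
      ‖(∑ n ∈ Finset.range N, p.coeff n • y ^ n) - z‖ :=
    ae_all_iff.2 fun N => ae_norm_le _
  have e2 : ∀ᵐ t ∂mu, ∀ N : ℕ, ((∑ n ∈ Finset.range N, p.coeff n • y ^ n) - z : Li) t =
      (∑ n ∈ Finset.range N, p.coeff n • y ^ n : Li) t - z t :=
    ae_all_iff.2 fun N => coeFn_sub _ _
  have e3 : ∀ᵐ t ∂mu, ∀ N : ℕ, (∑ n ∈ Finset.range N, p.coeff n • y ^ n : Li) t =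
      ∑ n ∈ Finset.range N, (p.coeff n • y ^ n : Li) t :=
    ae_all_iff.2 fun N => coeFn_sum _ _
  have e4 : ∀ᵐ t ∂mu, ∀ n : ℕ, (p.coeff n • y ^ n : Li) t = p.coeff n * (y t) ^ n := by
    refine ae_all_iff.2 fun n => ?_
    filter_upwards [coeFn_smul (p.coeff n) (y ^ n), coeFn_pow y n] with t h1 h2
    rw [h1, h2]
  filter_upwards [e1, e2, e3, e4, hya, ae_norm_le y] with t g1 g2 g3 g4 g5 g6
  have h1 : Tendsto (fun N => (∑ n ∈ Finset.range N, p.coeff n • y ^ n : Li) t) atTop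
      (𝓝 (z t)) := by
    rw [tendsto_iff_norm_sub_tendsto_zero]
    refine squeeze_zero (fun _ => norm_nonneg _) (fun N => ?_) hsy
    rw [← g2 N]
    exact g1 N
  have h2 : HasSum (fun n : ℕ => p.coeff n * (f t - c) ^ n) (F (f t)) := by
    have h3 : f t ∈ Metric.eball c (r₁ : ℝ≥0∞) := by
      rw [Metric.mem_eball, edist_dist, dist_eq_norm, ← g5,
        ENNReal.ofReal_lt_coe_iff (norm_nonneg _), hr₁]
      linarith
    have h4 := hFP.hasSum_sub h3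
    have h7 : (fun n : ℕ => p.coeff n * (f t - c) ^ n) = fun n : ℕ => p n fun _ => f t - c := by
      funext n
      rw [FormalMultilinearSeries.apply_eq_pow_smul_coeff, smul_eq_mul, mul_comm]
    rw [h7]
    exact h4
  have h5 := h2.tendsto_sum_nat
  have h6 : Tendsto (fun N => (∑ n ∈ Finset.range N, p.coeff n • y ^ n : Li) t) atTop
      (𝓝 (F (f t))) := by
    refine h5.congr fun N => ?_
    rw [g3 N]
    refine Finset.sum_congr rfl fun n _ => ?_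
    rw [g4 n, g5]
  exact tendsto_nhds_unique h1 h6

end Pool.Agent.Y941.GD
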