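import Pool.Agent.Helper406.ToepGD

/-!
# Matrices and power series over `ST(H^∞)`
-/

set_option autoImplicit false

open MeasureTheory AddCircle Filter Topology
open scoped ComplexConjugate ENNReal NNReal

namespace Pool.Agent.Y941.GD

open Pool.Agent.Helper406.Toep

lemma coeFn_sum {ι : Type} (s : Finset ι) (u : ι → Li) :
    ⇑(∑ k ∈ s, u k) =ᵐ[mu] fun t => ∑ k ∈ s, u k t := by
  classical
  induction s using Finset.induction_on with
  | empty =>
    simp only [Finset.sum_empty]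
    exact Lp.coeFn_zero ℂ ⊤ mu
  | insert a s ha ih =>
    rw [Finset.sum_insert ha]
    filter_upwards [Pool.Agent.Helper406.Toep.coeFn_add (u a) (∑ k ∈ s, u k), ih] with t h1 h2
    rw [h1, h2, Finset.sum_insert ha]

/-- a matrix of small norm over `ST(H^∞)` -/
theorem isUnit_det {n : ℕ} (x : Matrix (Fin n) (Fin n) TL) (q : ℝ) (hq0 : 0 ≤ q) (hq : q < 1)
    (h : ∀ v : Fin n → ℂ, ∀ᵐ t ∂mu,
      ‖∑ i, conj (v i) * ∑ j, HL.sy (x i j) t * v j‖ ≤ q * ∑ i, ‖v i‖ ^ 2) :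
    IsUnit (1 - x).det := by
  by_contra hu
  obtain ⟨χ0, hχ0⟩ := WeakDual.CharacterSpace.exists_apply_eq_zero hu
  obtain ⟨χ, hχ⟩ : ∃ χ : TL →ₐ[ℂ] ℂ, χ = WeakDual.CharacterSpace.equivAlgHom χ0 := ⟨_, rfl⟩
  have h0 : χ (1 - x).det = 0 := by
    rw [hχ, WeakDual.CharacterSpace.equivAlgHom_coe]; exact hχ0
  rw [AlgHom.map_det] at h0
  obtain ⟨v, hv, hv0⟩ := Matrix.exists_mulVec_eq_zero_iff.2 h0
  have h1 : ∀ i, ∑ j, χ (x i j) * v j = v i := by
    intro i
    have h2 := congrFun hv0 i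
    rw [map_sub, map_one, Matrix.sub_mulVec, Matrix.one_mulVec, Pi.sub_apply, Pi.zero_apply,
      sub_eq_zero] at h2
    rw [h2]
    simp only [Matrix.mulVec, dotProduct, AlgHom.mapMatrix_apply, Matrix.map_apply]
  obtain ⟨y, hy⟩ : ∃ y : TL, y = ∑ i, conj (v i) • ∑ j, v j • x i j := ⟨_, rfl⟩
  have h3 : χ y = ((∑ i, ‖v i‖ ^ 2 : ℝ) : ℂ) := by
    rw [hy, map_sum]
    push_cast
    refine Finset.sum_congr rfl fun i _ => ?_
    rw [map_smul, map_sum, smul_eq_mul]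
    have h4 : ∑ j, χ (v j • x i j) = v i := by
      rw [← h1 i]
      refine Finset.sum_congr rfl fun j _ => ?_
      rw [map_smul, smul_eq_mul, mul_comm]
    rw [h4, RCLike.conj_mul]
    rfl
  have h5 : ‖HL.sy y‖ ≤ q * ∑ i, ‖v i‖ ^ 2 := by
    apply norm_le_of_ae (by positivity)
    have h6 : HL.sy y = ∑ i, conj (v i) • ∑ j, v j • HL.sy (x i j) := by
      rw [hy, map_sum]
      refine Finset.sum_congr rfl fun i _ => ?_
      rw [map_smul, map_sum]
      congr 1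
    have h7 : ∀ᵐ t ∂mu, ∀ i, (conj (v i) • ∑ j, v j • HL.sy (x i j) : Li) t =
        conj (v i) * (∑ j, v j • HL.sy (x i j) : Li) t :=
      ae_all_iff.2 fun i => coeFn_smul _ _
    have h8 : ∀ᵐ t ∂mu, ∀ i, (∑ j, v j • HL.sy (x i j) : Li) t =
        ∑ j, (v j • HL.sy (x i j) : Li) t :=
      ae_all_iff.2 fun i => coeFn_sum _ _
    have h9 : ∀ᵐ t ∂mu, ∀ i j, (v j • HL.sy (x i j) : Li) t = v j * HL.sy (x i j) t :=
      ae_all_iff.2 fun i => ae_all_iff.2 fun j => coeFn_smul _ _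
    filter_upwards [h v, h7, h8, h9, coeFn_sum Finset.univ
      (fun i => (conj (v i) • ∑ j, v j • HL.sy (x i j) : Li))] with t g1 g2 g3 g4 g5
    rw [h6, g5]
    have g6 : ∑ i, (conj (v i) • ∑ j, v j • HL.sy (x i j) : Li) t =
        ∑ i, conj (v i) * ∑ j, HL.sy (x i j) t * v j := by
      refine Finset.sum_congr rfl fun i _ => ?_
      rw [g2 i, g3 i]
      congr 1
      refine Finset.sum_congr rfl fun j _ => ?_
      rw [g4 i j, mul_comm]
    rw [g6]
    exact g1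
  have h10 := (char_le y χ).trans h5
  have h11 : 0 ≤ ∑ i, ‖v i‖ ^ 2 := Finset.sum_nonneg fun i _ => by positivity
  rw [h3, Complex.norm_real, Real.norm_eq_abs, abs_of_nonneg h11] at h10
  have h12 : ∑ i, ‖v i‖ ^ 2 = 0 := by nlinarith
  rw [Finset.sum_eq_zero_iff_of_nonneg (fun i _ => by positivity)] at h12
  apply hv
  funext i
  have := h12 i (Finset.mem_univ i)
  simpa using this

/-- matrix valued functions of small norm -/
theorem mat_gd {n : ℕ} (M : UnitAddCircle → Matrix (Fin n) (Fin n) ℂ) (q : ℝ) (hq0 : 0 ≤ q)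
    (hq : q < 1) (hM : ∀ i j, ST (fun t => M t i j))
    (hb : ∀ᵐ t ∂haarAddCircle, ∀ v : Fin n → ℂ,
      ∑ i, ‖(M t).mulVec v i‖ ^ 2 ≤ q ^ 2 * ∑ i, ‖v i‖ ^ 2) :
    ∀ i j, ST (fun t => ((1 - M t)⁻¹) i j) := by
  have hM' := fun i j => (ST_iff _).1 (hM i j)
  choose x hx using hM'
  have hxa : ∀ᵐ t ∂mu, ∀ i j, HL.sy (x i j) t = M t i j :=
    ae_all_iff.2 fun i => ae_all_iff.2 fun j => hx i j
  have hu : IsUnit (1 - (Matrix.of x)).det := by
    refine isUnit_det (Matrix.of x) q hq0 hq fun v => ?_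
    filter_upwards [hxa, hb] with t h1 h2
    have h3 : ∀ i, ∑ j, HL.sy ((Matrix.of x) i j) t * v j = (M t).mulVec v i := by
      intro i
      simp only [Matrix.mulVec, dotProduct, Matrix.of_apply]
      exact Finset.sum_congr rfl fun j _ => by rw [h1 i j]
    simp only [h3]
    have h4 : ‖∑ i, conj (v i) * (M t).mulVec v i‖ ≤ ∑ i, ‖v i‖ * ‖(M t).mulVec v i‖ := by
      refine (norm_sum_le _ _).trans (le_of_eq ?_)
      exact Finset.sum_congr rfl fun i _ => by rw [norm_mul, RCLike.norm_conj]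
    refine h4.trans ?_
    have h5 := Finset.sum_mul_sq_le_sq_mul_sq Finset.univ (fun i => ‖v i‖)
      (fun i => ‖(M t).mulVec v i‖)
    have h6 : 0 ≤ ∑ i, ‖v i‖ ^ 2 := Finset.sum_nonneg fun i _ => by positivity
    have h7 : (∑ i, ‖v i‖ * ‖(M t).mulVec v i‖) ^ 2 ≤ (q * ∑ i, ‖v i‖ ^ 2) ^ 2 := by
      refine h5.trans ?_
      have h8 := mul_le_mul_of_nonneg_left (h2 v) h6
      refine h8.trans (le_of_eq ?_)
      ring
    exact abs_le_of_sq_le_sq' h7 (by positivity) |>.2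
  obtain ⟨N, hN⟩ : ∃ N : Matrix (Fin n) (Fin n) TL, N = (1 - (Matrix.of x))⁻¹ := ⟨_, rfl⟩
  have hN1 : (1 - (Matrix.of x)) * N = 1 := by rw [hN]; exact Matrix.mul_nonsing_inv _ hu
  intro i j
  rw [ST_iff]
  refine ⟨N i j, ?_⟩
  -- the entries of the product almost everywhere
  have e1 : ∀ i j, ∑ k, (HL.sy ((1 : Matrix (Fin n) (Fin n) TL) i k) - HL.sy (x i k)) * HL.sy (N k j) =
      HL.sy ((1 : Matrix (Fin n) (Fin n) TL) i j) := by
    intro i j
    have h := congrArg (fun A : Matrix (Fin n) (Fin n) TL => HL.sy (A i j)) hN1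
    simp only [Matrix.mul_apply, map_sum, map_mul, Matrix.sub_apply, map_sub] at h
    exact h
  have e2 : ∀ᵐ t ∂mu, ∀ i k, HL.sy ((1 : Matrix (Fin n) (Fin n) TL) i k) t =
      (1 : Matrix (Fin n) (Fin n) ℂ) i k := by
    refine ae_all_iff.2 fun i => ae_all_iff.2 fun k => ?_
    by_cases hik : i = k
    · subst hik
      rw [Matrix.one_apply_eq, Matrix.one_apply_eq, map_one]
      exact coeFn_one
    · rw [Matrix.one_apply_ne hik, Matrix.one_apply_ne hik, map_zero]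
      exact Lp.coeFn_zero ℂ ⊤ mu
  have e3 : ∀ᵐ t ∂mu, ∀ i j,
      (∑ k, (HL.sy ((1 : Matrix (Fin n) (Fin n) TL) i k) - HL.sy (x i k)) * HL.sy (N k j) : Li) t =
      ∑ k, ((HL.sy ((1 : Matrix (Fin n) (Fin n) TL) i k) - HL.sy (x i k)) * HL.sy (N k j) : Li) t :=
    ae_all_iff.2 fun i => ae_all_iff.2 fun j => coeFn_sum _ _
  have e4 : ∀ᵐ t ∂mu, ∀ i j k,
      ((HL.sy ((1 : Matrix (Fin n) (Fin n) TL) i k) - HL.sy (x i k)) * HL.sy (N k j) : Li) t =
      (HL.sy ((1 : Matrix (Fin n) (Fin n) TL) i k) - HL.sy (x i k) : Li) t * HL.sy (N k j) t :=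
    ae_all_iff.2 fun i => ae_all_iff.2 fun j => ae_all_iff.2 fun k => coeFn_mul _ _
  have e5 : ∀ᵐ t ∂mu, ∀ i k,
      (HL.sy ((1 : Matrix (Fin n) (Fin n) TL) i k) - HL.sy (x i k) : Li) t =
      HL.sy ((1 : Matrix (Fin n) (Fin n) TL) i k) t - HL.sy (x i k) t :=
    ae_all_iff.2 fun i => ae_all_iff.2 fun k => coeFn_sub _ _
  filter_upwards [hxa, e2, e3, e4, e5] with t g1 g2 g3 g4 g5
  have g6 : (1 - M t) * (Matrix.of fun i j => HL.sy (N i j) t) = 1 := by
    ext i j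
    rw [Matrix.mul_apply, ← g2 i j, ← e1 i j, g3 i j]
    refine Finset.sum_congr rfl fun k _ => ?_
    rw [g4 i j k, g5 i k, g2 i k, g1 i k, Matrix.sub_apply, Matrix.of_apply]
  rw [Matrix.inv_eq_right_inv g6, Matrix.of_apply]

end Pool.Agent.Y941.GD
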