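import Pool.Agent.Y941.GD.Hin

/-!
# Multipliers of Cauchy type integrals
-/

set_option autoImplicit false

open MeasureTheory AddCircle Filter Topology
open scoped ComplexConjugate ENNReal NNReal

namespace Pool.Agent.Y941.GD

open Pool.Agent.Helper406.Toep

/-- holomorphic functions of multipliers -/
theorem mfun {f : UnitAddCircle → ℂ} (h2 : ST (fun t => conj (f t))) (c : ℂ) (R : ℝ)
    (hR : (eLpNorm (fun t => f t - c) ⊤ haarAddCircle).toReal < R) (F : ℂ → ℂ)
    (hF : DifferentiableOn ℂ F (Metric.ball c R)) : ST (fun t => conj (F (f t))) := by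
  have h3 : eLpNorm (fun t => conj (f t) - conj c) ⊤ haarAddCircle =
      eLpNorm (fun t => f t - c) ⊤ haarAddCircle := by
    apply eLpNorm_congr_norm_ae
    refine Eventually.of_forall fun t => ?_
    show ‖conj (f t) - conj c‖ = ‖f t - c‖
    rw [← map_sub, RCLike.norm_conj]
  have h4 := pser h2 (conj c) R (by rw [h3]; exact hR) (fun z => conj (F (conj z))) ?_
  · refine ST_congr h4 (Eventually.of_forall fun t => ?_)
    show conj (F (conj (conj (f t)))) = conj (F (f t))
    rw [Complex.conj_conj]
  · intro z hz
    have h5 : conj z ∈ Metric.ball c R := by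
      rw [Metric.mem_ball] at hz ⊢
      rw [← Complex.dist_conj_conj, Complex.conj_conj]
      exact hz
    have h6 : DifferentiableAt ℂ F (conj z) :=
      (hF _ h5).differentiableAt (Metric.isOpen_ball.mem_nhds h5)
    have h7 := h6.conj_conj
    rw [Complex.conj_conj] at h7
    exact h7.differentiableWithinAt

end Pool.Agent.Y941.GD
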