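import Pool.Agent.Y941.GD.Fun

/-!
# Functional calculus in discs for `ST(H^∞)`
-/

set_option autoImplicit false

open MeasureTheory AddCircle Filter Topology
open scoped ComplexConjugate ENNReal NNReal

namespace Pool.Agent.Y941.GD

open Pool.Agent.Helper406.Toep

theorem pser {f : UnitAddCircle → ℂ} (hf : ST f) (c : ℂ) (R : ℝ)
    (hR : (eLpNorm (fun t => f t - c) ⊤ haarAddCircle).toReal < R) (F : ℂ → ℂ)
    (hF : DifferentiableOn ℂ F (Metric.ball c R)) : ST (fun t => F (f t)) := by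
  obtain ⟨x, hx⟩ := (ST_iff f).1 hf
  obtain ⟨y, hy⟩ : ∃ y : TL, y = x - c • 1 := ⟨_, rfl⟩
  have hya : ⇑(HL.sy y) =ᵐ[mu] fun t => f t - c := by
    rw [hy, map_sub, map_smul, map_one]
    filter_upwards [coeFn_sub (HL.sy x) (c • 1), coeFn_smul c 1, coeFn_one, hx] with t h1 h2 h3 h4
    rw [h1, h2, h3, h4, mul_one]
  have hyn : ‖HL.sy y‖ = (eLpNorm (fun t => f t - c) ⊤ haarAddCircle).toReal := by
    rw [Lp.norm_def, eLpNorm_congr_ae hya]
  rw [← hyn] at hR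
  obtain ⟨ρ, hρ1, hρ2⟩ := exists_between hR
  obtain ⟨R₁, hR1, hR2⟩ := exists_between hρ2
  have hρ0 : 0 < ρ := lt_of_le_of_lt (norm_nonneg _) hρ1
  have hR10 : 0 < R₁ := hρ0.trans hR1
  have hρc : (ρ : ℂ) ≠ 0 := by exact_mod_cast hρ0.ne'
  -- the powers of `y`
  have hq : spectralRadius ℂ (((ρ : ℂ)⁻¹) • y) < 1 := by
    refine lt_of_le_of_lt (spectralRadius_le _) ?_
    have h1 : ‖HL.sy (((ρ : ℂ)⁻¹) • y)‖ < 1 := by
      rw [map_smul, norm_smul, norm_inv, Complex.norm_real, Real.norm_eq_abs, abs_of_pos hρ0,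
        inv_mul_lt_iff₀ hρ0, mul_one]
      exact hρ1
    exact_mod_cast h1
  have hs := summable_pow hq
  obtain ⟨C, hC⟩ : ∃ C : ℝ, C = ∑' n : ℕ, ‖(((ρ : ℂ)⁻¹) • y) ^ n‖ := ⟨_, rfl⟩
  have hC0 : 0 ≤ C := by rw [hC]; exact tsum_nonneg fun _ => norm_nonneg _
  have hpow : ∀ n, ‖y ^ n‖ ≤ ρ ^ n * C := by
    intro n
    have h1 : ‖(((ρ : ℂ)⁻¹) • y) ^ n‖ ≤ C := by
      rw [hC]; exact hs.le_tsum n fun _ _ => norm_nonneg _
    have h2 : y ^ n = ((ρ : ℂ) ^ n) • (((ρ : ℂ)⁻¹) • y) ^ n := by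
      rw [smul_pow, smul_smul, ← mul_pow, mul_inv_cancel₀ hρc, one_pow, one_smul]
    rw [h2, norm_smul, norm_pow, Complex.norm_real, Real.norm_eq_abs, abs_of_pos hρ0]
    exact mul_le_mul_of_nonneg_left h1 (by positivity)
  -- the power series of `F`
  obtain ⟨r₁, hr₁⟩ : ∃ r : ℝ≥0, (r : ℝ) = R₁ := ⟨⟨R₁, hR10.le⟩, rfl⟩
  obtain ⟨r₀, hr₀⟩ : ∃ r : ℝ≥0, (r : ℝ) = ρ := ⟨⟨ρ, hρ0.le⟩, rfl⟩
  have hFP : HasFPowerSeriesOnBall F (cauchyPowerSeries F c r₁) c r₁ := by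
    apply DifferentiableOn.hasFPowerSeriesOnBall
    · exact hF.mono (Metric.closedBall_subset_ball (by rw [hr₁]; exact hR2))
    · exact_mod_cast (by rw [hr₁]; exact hR10 : (0 : ℝ) < r₁)
  obtain ⟨p, hp⟩ : ∃ p : FormalMultilinearSeries ℂ ℂ ℂ, p = cauchyPowerSeries F c r₁ := ⟨_, rfl⟩
  rw [← hp] at hFP
  have hrad : (r₀ : ℝ≥0∞) < p.radius := by
    refine lt_of_lt_of_le ?_ hFP.r_le
    have : r₀ < r₁ := by
      rw [← NNReal.coe_lt_coe, hr₀, hr₁]; exact hR1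
    exact_mod_cast this
  have hsum0 := p.summable_norm_mul_pow hrad
  rw [hr₀] at hsum0
  have hsum : Summable fun n => p.coeff n • y ^ n := by
    apply Summable.of_norm_bounded (hsum0.mul_right C)
    intro n
    rw [norm_smul, ← FormalMultilinearSeries.norm_apply_eq_norm_coef, mul_assoc]
    exact mul_le_mul_of_nonneg_left (hpow n) (norm_nonneg _)
  obtain ⟨z, hz⟩ := hsum
  have hpart := hz.tendsto_sum_nat
  -- the symbols of the finite sums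
  have hsy : Tendsto (fun N => ‖HL.sy (∑ n ∈ Finset.range N, p.coeff n • y ^ n) - HL.sy z‖)
      atTop (𝓝 0) := by
    have h1 : Tendsto (fun N => ‖(∑ n ∈ Finset.range N, p.coeff n • y ^ n) - z‖) atTop (𝓝 0) := by
      have := (hpart.sub_const z).norm
      simpa using this
    refine squeeze_zero (fun _ => norm_nonneg _) (fun N => ?_) h1
    rw [← map_sub]
    have h2 := Pool.Agent.Helper406.Toep.Hardy.norm_TT ((∑ n ∈ Finset.range N, p.coeff n • y ^ n) - z)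
    have h3 : 3 * ‖HL.sy ((∑ n ∈ Finset.range N, p.coeff n • y ^ n) - z)‖ ≤
        ‖(∑ n ∈ Finset.range N, p.coeff n • y ^ n) - z‖ := by
      rw [h2]; exact le_max_left _ _
    have h4 := norm_nonneg (HL.sy ((∑ n ∈ Finset.range N, p.coeff n • y ^ n) - z))
    linarith
  rw [ST_iff]
  refine ⟨z, ?_⟩
  have e1 : ∀ᵐ t ∂mu, ∀ N : ℕ, ‖(HL.sy (∑ n ∈ Finset.range N, p.coeff n • y ^ n) - HL.sy z : Li) t‖ ≤
      ‖HL.sy (∑ n ∈ Finset.range N, p.coeff n • y ^ n) - HL.sy z‖ :=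
    ae_all_iff.2 fun N => ae_norm_le _
  have e2 : ∀ᵐ t ∂mu, ∀ N : ℕ, (HL.sy (∑ n ∈ Finset.range N, p.coeff n • y ^ n) - HL.sy z : Li) t =
      HL.sy (∑ n ∈ Finset.range N, p.coeff n • y ^ n) t - HL.sy z t :=
    ae_all_iff.2 fun N => coeFn_sub _ _
  have e3 : ∀ᵐ t ∂mu, ∀ N : ℕ, HL.sy (∑ n ∈ Finset.range N, p.coeff n • y ^ n) t =
      ∑ n ∈ Finset.range N, (HL.sy (p.coeff n • y ^ n) : Li) t := by
    refine ae_all_iff.2 fun N => ?_
    rw [map_sum]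
    exact coeFn_sum _ _
  have e4 : ∀ᵐ t ∂mu, ∀ n : ℕ, (HL.sy (p.coeff n • y ^ n) : Li) t = p.coeff n * (HL.sy y t) ^ n := by
    refine ae_all_iff.2 fun n => ?_
    rw [map_smul, map_pow]
    filter_upwards [coeFn_smul (p.coeff n) (HL.sy y ^ n), coeFn_pow (HL.sy y) n] with t h1 h2
    rw [h1, h2]
  filter_upwards [e1, e2, e3, e4, hya, ae_norm_le (HL.sy y)] with t g1 g2 g3 g4 g5 g6
  have h1 : Tendsto (fun N => HL.sy (∑ n ∈ Finset.range N, p.coeff n • y ^ n) t) atTop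
      (𝓝 (HL.sy z t)) := by
    rw [tendsto_iff_norm_sub_tendsto_zero]
    refine squeeze_zero (fun _ => norm_nonneg _) (fun N => ?_) hsy
    rw [← g2 N]
    exact g1 N
  have h2 : HasSum (fun n : ℕ => p.coeff n * (f t - c) ^ n) (F (f t)) := by
    have h3 : f t ∈ Metric.eball c (r₁ : ℝ≥0∞) := by
      rw [Metric.mem_eball, edist_dist, dist_eq_norm, ← g5,
        ENNReal.ofReal_lt_coe_iff (norm_nonneg _), hr₁]
      linarith
    have h4 := hFP.hasSum_sub h3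
    have h7 : (fun n : ℕ => p.coeff n * (f t - c) ^ n) = fun n : ℕ => p n fun _ => f t - c := by
      funext n
      rw [FormalMultilinearSeries.apply_eq_pow_smul_coeff, smul_eq_mul, mul_comm]
    rw [h7]
    exact h4
  have h5 := h2.tendsto_sum_nat
  have h6 : Tendsto (fun N => HL.sy (∑ n ∈ Finset.range N, p.coeff n • y ^ n) t) atTop
      (𝓝 (F (f t))) := by
    refine h5.congr fun N => ?_
    rw [g3 N]
    refine Finset.sum_congr rfl fun n _ => ?_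
    rw [g4 n, g5]
  exact tendsto_nhds_unique h1 h6

lemma inv_of_inj {n : ℕ} {A : Matrix (Fin n) (Fin n) ℂ} (h : ∀ v, A.mulVec v = 0 → v = 0) :
    A * A⁻¹ = 1 ∧ A⁻¹ * A = 1 := by
  have hd : A.det ≠ 0 := by
    intro h0
    obtain ⟨v, hv, hv0⟩ := Matrix.exists_mulVec_eq_zero_iff.2 h0
    exact hv (h v hv0)
  have hu : IsUnit A.det := isUnit_iff_ne_zero.2 hd
  exact ⟨Matrix.mul_nonsing_inv _ hu, Matrix.nonsing_inv_mul _ hu⟩

lemma vec_zero {n : ℕ} {v : Fin n → ℂ} (h : ∑ i, ‖v i‖ ^ 2 ≤ 0) : v = 0 := by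
  have h1 : ∑ i, ‖v i‖ ^ 2 = 0 :=
    le_antisymm h (Finset.sum_nonneg fun i _ => by positivity)
  rw [Finset.sum_eq_zero_iff_of_nonneg (fun i _ => by positivity)] at h1
  funext i
  have := h1 i (Finset.mem_univ i)
  simpa using this

lemma inv_small {n : ℕ} {A : Matrix (Fin n) (Fin n) ℂ} {q : ℝ} (hq0 : 0 ≤ q) (hq : q < 1)
    (h : ∀ v : Fin n → ℂ, ∑ i, ‖A.mulVec v i‖ ^ 2 ≤ q ^ 2 * ∑ i, ‖v i‖ ^ 2) :
    (1 - A) * (1 - A)⁻¹ = 1 ∧ (1 - A)⁻¹ * (1 - A) = 1 := by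
  apply inv_of_inj
  intro v hv
  rw [Matrix.sub_mulVec, Matrix.one_mulVec, sub_eq_zero] at hv
  have h1 := h v
  rw [← hv] at h1
  apply vec_zero
  have h2 : q ^ 2 < 1 := by nlinarith
  have h3 : 0 ≤ ∑ i, ‖v i‖ ^ 2 := Finset.sum_nonneg fun i _ => by positivity
  nlinarith

lemma inv_acc {n : ℕ} {A : Matrix (Fin n) (Fin n) ℂ} {δ : ℝ} (hδ : 0 < δ)
    (h : ∀ v : Fin n → ℂ, δ * ∑ i, ‖v i‖ ^ 2 ≤ (∑ i, conj (v i) * A.mulVec v i).re) :
    A * A⁻¹ = 1 ∧ A⁻¹ * A = 1 := by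
  apply inv_of_inj
  intro v hv
  have h1 := h v
  rw [hv] at h1
  simp only [Pi.zero_apply, mul_zero, Finset.sum_const_zero, Complex.zero_re] at h1
  apply vec_zero
  nlinarith

lemma off_of {f : UnitAddCircle → ℂ} {w : ℂ}
    (h : ¬ ∀ ε : ℝ, 0 < ε → 0 < haarAddCircle {t : UnitAddCircle | ‖f t - w‖ < ε}) : Off f w := by
  push Not at h
  obtain ⟨ε, hε, h1⟩ := h
  refine ⟨ε, hε, ?_⟩
  have h2 : haarAddCircle {t : UnitAddCircle | ‖f t - w‖ < ε} = 0 := nonpos_iff_eq_zero.1 h1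
  rw [ae_iff]
  convert h2 using 2
  ext t
  simp only [Set.mem_ofPred_eq, not_le, norm_sub_rev]

end Pool.Agent.Y941.GD
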